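import Pool.Agent.L5helper90.Frenet.Trig

/-!
# Algebraic lemmas on polynomials vanishing on the imaginary axis
-/

open Polynomial

namespace Pool.Agent.L5helper90.Frenet

theorem dvd_of_aeval {Q : ℝ[X]} {w : ℝ} (hw : w ≠ 0)
    (h : aeval ((w : ℂ) * Complex.I) Q = 0) : (X ^ 2 + C (w ^ 2) : ℝ[X]) ∣ Q := by
  have hmon : (X ^ 2 + C (w ^ 2) : ℝ[X]).Monic := monic_X_pow_add_C _ (by norm_num)
  have hdeg : (X ^ 2 + C (w ^ 2) : ℝ[X]).natDegree = 2 := natDegree_X_pow_add_C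
  rw [← modByMonic_eq_zero_iff_dvd hmon]
  set R := Q %ₘ (X ^ 2 + C (w ^ 2)) with hR
  have hRd : R.natDegree < 2 := by
    have := natDegree_modByMonic_lt Q hmon (by
      intro h1
      rw [h1] at hdeg
      simp at hdeg)
    rwa [hdeg] at this
  have hR2 : R = C (R.coeff 1) * X + C (R.coeff 0) :=
    eq_X_add_C_of_natDegree_le_one (by omega)
  have h1 : aeval ((w : ℂ) * Complex.I) R = 0 := by
    have h2 := modByMonic_add_div Q (X ^ 2 + C (w ^ 2) : ℝ[X])
    have h3 := congrArg (aeval ((w : ℂ) * Complex.I)) h2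
    rw [map_add, map_mul, h] at h3
    have h4 : aeval ((w : ℂ) * Complex.I) (X ^ 2 + C (w ^ 2) : ℝ[X]) = 0 := by
      simp [mul_pow]
    rw [h4, zero_mul, add_zero] at h3
    exact h3
  rw [hR2] at h1
  simp only [map_add, map_mul, aeval_C, aeval_X, Complex.coe_algebraMap] at h1
  have hre := congrArg Complex.re h1
  have him := congrArg Complex.im h1
  simp at hre him
  rw [hR2, hre]
  rcases him with h5 | h5
  · rw [h5]; simp
  · exact absurd h5 hw

/-- `X ∏_{w ∈ S} (X² + w²)`. -/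
noncomputable def FF (S : Finset ℕ) : ℝ[X] := X * ∏ w ∈ S, (X ^ 2 + C ((w : ℝ) ^ 2))

theorem FF_monic (S : Finset ℕ) : (FF S).Monic :=
  monic_X.mul (monic_prod_of_monic _ _ fun _ _ => monic_X_pow_add_C _ (by norm_num))

theorem FF_natDegree (S : Finset ℕ) : (FF S).natDegree = 1 + 2 * S.card := by
  unfold FF
  rw [monic_X.natDegree_mul (monic_prod_of_monic _ _ fun _ _ => monic_X_pow_add_C _ (by norm_num)),
    natDegree_X, natDegree_prod_of_monic _ _ fun _ _ => monic_X_pow_add_C _ (by norm_num)]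
  congr 1
  have h : ∀ w ∈ S, (X ^ 2 + C ((w : ℝ) ^ 2) : ℝ[X]).natDegree = 2 := fun w _ =>
    natDegree_X_pow_add_C
  rw [Finset.sum_congr rfl h]
  simp [mul_comm]

theorem aeval_FF (S : Finset ℕ) (a : ℕ) : aeval ((a : ℂ) * Complex.I) (FF S) =
    (a : ℂ) * Complex.I * ∏ w ∈ S, ((w : ℂ) ^ 2 - (a : ℂ) ^ 2) := by
  unfold FF
  rw [map_mul, aeval_X, map_prod]
  congr 1
  apply Finset.prod_congr rfl
  intro w _
  simp [mul_pow]
  ring

theorem aeval_FF_ne (S : Finset ℕ) (a : ℕ) (ha : a ≠ 0) (haS : a ∉ S) :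
    aeval ((a : ℂ) * Complex.I) (FF S) ≠ 0 := by
  rw [aeval_FF]
  refine mul_ne_zero (mul_ne_zero (by exact_mod_cast ha) Complex.I_ne_zero) ?_
  rw [Finset.prod_ne_zero_iff]
  intro w hw h
  have h1 : ((w : ℂ)) ^ 2 = (a : ℂ) ^ 2 := sub_eq_zero.1 h
  have h2 : w ^ 2 = a ^ 2 := by exact_mod_cast h1
  have h3 : w = a := Nat.pow_left_injective (n := 2) (by norm_num) h2
  exact haS (h3 ▸ hw)

theorem FF_dvd {P : ℝ[X]} (h0 : P.eval 0 = 0) (S : Finset ℕ)
    (h : ∀ w ∈ S, w ≠ 0 ∧ aeval ((w : ℂ) * Complex.I) P = 0) : FF S ∣ P := by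
  induction S using Finset.induction_on with
  | empty =>
    unfold FF
    simpa [X_dvd_iff, coeff_zero_eq_eval_zero] using h0
  | insert a S ha ih =>
    obtain ⟨Q, hQ⟩ := ih fun w hw => h w (Finset.mem_insert_of_mem hw)
    obtain ⟨ha0, ha1⟩ := h a (Finset.mem_insert_self a S)
    rw [hQ, map_mul] at ha1
    have h2 : aeval ((a : ℂ) * Complex.I) Q = 0 :=
      (mul_eq_zero.1 ha1).resolve_left (aeval_FF_ne S a ha0 ha)
    have h3 : (X ^ 2 + C (((a : ℕ) : ℝ) ^ 2) : ℝ[X]) ∣ Q :=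
      dvd_of_aeval (by exact_mod_cast ha0) (by simpa using h2)
    have h4 : FF (insert a S) = FF S * (X ^ 2 + C (((a : ℕ) : ℝ) ^ 2)) := by
      unfold FF
      rw [Finset.prod_insert ha]
      ring
    rw [h4, hQ]
    exact mul_dvd_mul_left _ h3

theorem pol_natDegree_le {n : ℕ} (c : Fin n → ℝ) : (pol c).natDegree ≤ n := by
  unfold pol
  apply natDegree_sum_le_of_forall_le
  intro i _
  refine (natDegree_C_mul_X_pow_le _ _).trans ?_
  have := i.2
  omega

theorem pol_eval_zero {n : ℕ} (c : Fin n → ℝ) : (pol c).eval 0 = 0 := by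
  unfold pol
  rw [eval_finsetSum]
  apply Finset.sum_eq_zero
  intro i _
  simp

end Pool.Agent.L5helper90.Frenet
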