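import Mathlib

/-!
# Nondegenerate closed curves, multiply traversed circles and Frenet frames

Definitions for the problem MP_f07be6_gt.
-/

open Real
open scoped RealInnerProductSpace ContDiff

namespace Pool.Agent.L5helper90.Frenet

/-- Euclidean `n`-space. -/
abbrev E (n : ℕ) : Type := EuclideanSpace ℝ (Fin n)

/-- A smooth closed curve in `ℝ^n`, that is a smooth map of `ℝ / 2πℤ` to `ℝ^n`, given as a smooth
`2π`-periodic function of a real variable. -/
structure IsClosedCurve {n : ℕ} (γ : ℝ → E n) : Prop where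
  smooth : ContDiff ℝ ∞ γ
  periodic : Function.Periodic γ (2 * π)

/-- A curve in `ℝ^n` is nondegenerate if its derivatives of order `1, …, n` are linearly
independent at every point. -/
def Nondegenerate {n : ℕ} (γ : ℝ → E n) : Prop :=
  ∀ t, LinearIndependent ℝ fun i : Fin n => iteratedDeriv ((i : ℕ) + 1) γ t

/-- The plane unit circle traversed `m` times, `c_m(t) = (cos mt, sin mt, 0, …, 0)`. -/
noncomputable def circ (n m : ℕ) : ℝ → E n := fun t =>
  WithLp.toLp 2 fun j : Fin n =>
    if (j : ℕ) = 0 then cos (m * t) else if (j : ℕ) = 1 then sin (m * t) else 0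

/-- Every `C^∞`-neighbourhood of `c_m` contains a nondegenerate closed curve in `ℝ^n`: for all `k`
and `ε > 0` there is a nondegenerate closed curve whose derivatives of order `0, …, k` are
uniformly `ε`-close to those of `c_m`. -/
def Perturbable (n m : ℕ) : Prop :=
  ∀ k : ℕ, ∀ ε : ℝ, 0 < ε → ∃ γ : ℝ → E n, IsClosedCurve γ ∧ Nondegenerate γ ∧
    ∀ j ≤ k, ∀ t : ℝ, ‖iteratedDeriv j γ t - iteratedDeriv j (circ n m) t‖ < ε

/-- `μ(n)`, the least `m ≥ 1` such that every `C^∞`-neighbourhood of `c_m` contains a nondegenerate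
closed curve in `ℝ^n` (by convention `0` if there is no such `m`). -/
noncomputable def mu (n : ℕ) : ℕ := sInf {m : ℕ | 1 ≤ m ∧ Perturbable n m}

/-- The Frenet frame: the orthonormal vectors obtained by the Gram-Schmidt process from the
derivatives of order `1, …, n`; `frame γ t i` is the vector `e_{i+1}(t)`, `i = 0, …, n - 1`. -/
noncomputable def frame {n : ℕ} (γ : ℝ → E n) (t : ℝ) : Fin n → E n :=
  InnerProductSpace.gramSchmidtNormed ℝ fun i : Fin n => iteratedDeriv ((i : ℕ) + 1) γ t

/-- The curvatures of a curve in `ℝ^{n+1}`: `curvature γ i t` is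
`κ_{i+1} = ⟨d e_{i+1} / d s, e_{i+2}⟩`, `i = 0, …, n - 1`, where `s` is the arc length. -/
noncomputable def curvature {n : ℕ} (γ : ℝ → E (n + 1)) (i : Fin n) (t : ℝ) : ℝ :=
  ⟪deriv (fun s => frame γ s i.castSucc) t, frame γ t i.succ⟫ / ‖deriv γ t‖

/-- The length of the Frenet frame of a closed curve in `ℝ^{n+1}`,
`∫ (κ_1² + … + κ_n²)^{1/2} ds`. -/
noncomputable def frameLength {n : ℕ} (γ : ℝ → E (n + 1)) : ℝ :=
  ∫ t in (0 : ℝ)..(2 * π), √(∑ i : Fin n, curvature γ i t ^ 2) * ‖deriv γ t‖

end Pool.Agent.L5helper90.Frenet
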