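import Pool.Agent.L5helper90.Frenet.Alg

/-!
# Nondegenerate curves near the plane circle
-/

open Polynomial

namespace Pool.Agent.L5helper90.Frenet

/-- scale factor: the coordinates other than the first two are multiplied by `ε`. -/
noncomputable def scl (ε : ℝ) (j : ℕ) : ℝ := if j < 2 then 1 else ε

theorem scl_ne {ε : ℝ} (hε : ε ≠ 0) (j : ℕ) : scl ε j ≠ 0 := by
  unfold scl; split_ifs
  · exact one_ne_zero
  · exact hε

/-- coefficient of a pure cosine or sine: `Re e^{iwt} = cos wt`, `Re (-i e^{iwt}) = sin wt`. -/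
noncomputable def cs (b : Prop) [Decidable b] : ℂ := if b then 1 else -Complex.I

/-- Coefficients for even dimension. -/
noncomputable def AE (ε : ℝ) (j : ℕ) (w : ℕ) : ℂ :=
  (scl ε j : ℂ) * (if w = j / 2 + 1 then cs (j % 2 = 0) else 0)

theorem re_zero_of_scl {s : ℝ} (hs : s ≠ 0) {z : ℂ} (h : ((s : ℂ) * z).re = 0) : z.re = 0 := by
  rw [Complex.re_ofReal_mul] at h
  exact (mul_eq_zero.1 h).resolve_left hs

theorem eq_zero_of_cs {z : ℂ} {e : ℂ} (he : e ≠ 0) (h1 : (1 * z * e).re = 0)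
    (h2 : (-Complex.I * z * e).re = 0) : z = 0 := by
  have h3 : (z * e).re = 0 := by simpa using h1
  have h4 : (z * e).im = 0 := by
    have : -Complex.I * z * e = -(Complex.I * (z * e)) := by ring
    rw [this] at h2
    simp only [Complex.neg_re, Complex.I_mul_re, neg_neg] at h2
    exact h2
  have h5 : z * e = 0 := Complex.ext h3 h4
  exact (mul_eq_zero.1 h5).resolve_right he

theorem nondeg_even (p : ℕ) (ε : ℝ) (hε : ε ≠ 0) :
    Nondegenerate (tcurve (p + 1) (fun j : Fin (2 * p) => AE ε j) 0) := by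
  apply nondegenerate_tcurve
  intro c t h
  have hj : ∀ j : Fin (2 * p), (cs ((j : ℕ) % 2 = 0) *
      aeval ((((j : ℕ) / 2 + 1 : ℕ) : ℂ) * Complex.I) (pol c) *
      Complex.exp ((((j : ℕ) / 2 + 1 : ℕ) : ℂ) * Complex.I * t)).re = 0 := by
    intro j
    have h1 := h j
    rw [Finset.sum_eq_single ((j : ℕ) / 2 + 1)] at h1
    · unfold AE at h1
      rw [if_pos rfl] at h1
      apply re_zero_of_scl (scl_ne hε (j : ℕ))
      rw [← h1]
      congr 1
      ring
    · intro b _ hb
      unfold AE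
      rw [if_neg hb]
      ring
    · intro hb
      exfalso
      apply hb
      rw [Finset.mem_range]
      have := j.2
      omega
  have hd : FF (Finset.Icc 1 p) ∣ pol c := by
    apply FF_dvd (pol_eval_zero c)
    intro w hw
    rw [Finset.mem_Icc] at hw
    refine ⟨by omega, ?_⟩
    have e1 := hj ⟨2 * (w - 1), by omega⟩
    have e2 := hj ⟨2 * (w - 1) + 1, by omega⟩
    simp only at e1 e2
    rw [show 2 * (w - 1) / 2 + 1 = w by omega, show 2 * (w - 1) % 2 = 0 by omega] at e1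
    rw [show (2 * (w - 1) + 1) / 2 + 1 = w by omega,
      show (2 * (w - 1) + 1) % 2 = 1 by omega] at e2
    simp only [cs, if_true, one_ne_zero, if_false] at e1 e2
    exact eq_zero_of_cs (Complex.exp_ne_zero _) e1 e2
  apply eq_zero_of_dvd_of_natDegree_lt hd
  rw [FF_natDegree]
  have := pol_natDegree_le c
  simp
  omega

/-- frequencies in odd dimension `2q + 5` -/
def SO (q : ℕ) : Finset ℕ := insert 1 (Finset.Icc 6 (q + 5))

theorem SO_card (q : ℕ) : (SO q).card = q + 1 := by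
  unfold SO
  rw [Finset.card_insert_of_notMem (by simp)]
  simp

theorem mem_SO {q w : ℕ} : w ∈ SO q ↔ w = 1 ∨ (6 ≤ w ∧ w ≤ q + 5) := by
  simp [SO]

/-- the value of `X ∏ (X² + k²)` at `iw` -/
noncomputable def dd (q w : ℕ) : ℂ := aeval ((w : ℂ) * Complex.I) (FF (SO q))

theorem dd_ne (q w : ℕ) (hw : w ≠ 0) (h : w ∉ SO q) : dd q w ≠ 0 := aeval_FF_ne _ _ hw h

/-- Coefficients for odd dimension `2q + 5`. -/
noncomputable def AO (q : ℕ) (ε : ℝ) (j : ℕ) (w : ℕ) : ℂ :=
  (scl ε j : ℂ) *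
    (if j = 0 then (if w = 1 then 1 else 0)
    else if j = 1 then (if w = 1 then -Complex.I else 0)
    else if j = 2 then (if w = 3 then (√7 : ℝ) / dd q 3 else if w = 2 then (√8 : ℝ) / dd q 2 else 0)
    else if j = 3 then (if w = 3 then -Complex.I * (√7 : ℝ) / dd q 3 else
      if w = 2 then Complex.I * (√8 : ℝ) / dd q 2 else 0)
    else if j = 4 then (if w = 5 then 1 / dd q 5 else 0)
    else (if w = (j + 7) / 2 then cs (j % 2 = 1) else 0))

/-- The linear algebra of the three special coordinates. -/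
theorem linalg {q0 q1 q2 C S a b : ℝ} (hCS : S ^ 2 + C ^ 2 = 1) (ha : a ^ 2 = 7) (hb : b ^ 2 = 8)
    (ha0 : 0 < a) (hb0 : 0 < b)
    (h1 : q0 * (a * C + b) + q1 * (-3 * a * S) + q2 * (-9 * a * C - 4 * b) = 0)
    (h2 : q0 * (a * S) + q1 * (3 * a * C - 2 * b) + q2 * (-9 * a * S) = 0)
    (h3 : q0 * C + q1 * (-5 * S) + q2 * (-25 * C) = 0) : q0 = 0 ∧ q1 = 0 ∧ q2 = 0 := by
  have hS : S ^ 2 = 1 - C ^ 2 := by linarith
  have hdet : (a * C + b) * ((3 * a * C - 2 * b) * (-25 * C) - (-9 * a * S) * (-5 * S))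
      - (-3 * a * S) * ((a * S) * (-25 * C) - (-9 * a * S) * C)
      + (-9 * a * C - 4 * b) * ((a * S) * (-5 * S) - (3 * a * C - 2 * b) * C)
      = - (a * b * (6 * C ^ 2 + 25)) := by
    have : (a * C + b) * ((3 * a * C - 2 * b) * (-25 * C) - (-9 * a * S) * (-5 * S))
      - (-3 * a * S) * ((a * S) * (-25 * C) - (-9 * a * S) * C)
      + (-9 * a * C - 4 * b) * ((a * S) * (-5 * S) - (3 * a * C - 2 * b) * C)
      = (a * C + b) * ((3 * a * C - 2 * b) * (-25 * C) - 45 * a * S ^ 2)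
      - 48 * a ^ 2 * C * S ^ 2
      + (-9 * a * C - 4 * b) * (-5 * a * S ^ 2 - (3 * a * C - 2 * b) * C) := by ring
    rw [this, hS]
    have h4 : (a * C + b) * ((3 * a * C - 2 * b) * (-25 * C) - 45 * a * (1 - C ^ 2))
      - 48 * a ^ 2 * C * (1 - C ^ 2)
      + (-9 * a * C - 4 * b) * (-5 * a * (1 - C ^ 2) - (3 * a * C - 2 * b) * C)
      = - (a * b * (6 * C ^ 2 + 25)) + 6 * C * (7 * b ^ 2 - 8 * a ^ 2) := by ring
    rw [h4, ha, hb]
    ring
  have hD : - (a * b * (6 * C ^ 2 + 25)) ≠ 0 := by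
    have : 0 < a * b * (6 * C ^ 2 + 25) := by positivity
    linarith
  refine ⟨?_, ?_, ?_⟩
  · have : q0 * (- (a * b * (6 * C ^ 2 + 25))) = 0 := by
      rw [← hdet]
      linear_combination ((3 * a * C - 2 * b) * (-25 * C) - (-9 * a * S) * (-5 * S)) * h1
        - ((-3 * a * S) * (-25 * C) - (-9 * a * C - 4 * b) * (-5 * S)) * h2
        + ((-3 * a * S) * (-9 * a * S) - (-9 * a * C - 4 * b) * (3 * a * C - 2 * b)) * h3
    exact (mul_eq_zero.1 this).resolve_right hD
  · have : q1 * (- (a * b * (6 * C ^ 2 + 25))) = 0 := by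
      rw [← hdet]
      linear_combination (-((a * S) * (-25 * C) - (-9 * a * S) * C)) * h1
        + ((a * C + b) * (-25 * C) - (-9 * a * C - 4 * b) * C) * h2
        - ((a * C + b) * (-9 * a * S) - (-9 * a * C - 4 * b) * (a * S)) * h3
    exact (mul_eq_zero.1 this).resolve_right hD
  · have : q2 * (- (a * b * (6 * C ^ 2 + 25))) = 0 := by
      rw [← hdet]
      linear_combination ((a * S) * (-5 * S) - (3 * a * C - 2 * b) * C) * h1
        - ((a * C + b) * (-5 * S) - (-3 * a * S) * C) * h2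
        + ((a * C + b) * (3 * a * C - 2 * b) - (-3 * a * S) * (a * S)) * h3
    exact (mul_eq_zero.1 this).resolve_right hD

theorem exp_re (w : ℕ) (t : ℝ) :
    (Complex.exp ((w : ℂ) * Complex.I * t)).re = Real.cos (w * t) := by
  rw [show (w : ℂ) * Complex.I * t = ((w * t : ℝ) : ℂ) * Complex.I by push_cast; ring]
  exact Complex.exp_ofReal_mul_I_re _

theorem exp_im (w : ℕ) (t : ℝ) :
    (Complex.exp ((w : ℂ) * Complex.I * t)).im = Real.sin (w * t) := by
  rw [show (w : ℂ) * Complex.I * t = ((w * t : ℝ) : ℂ) * Complex.I by push_cast; ring]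
  exact Complex.exp_ofReal_mul_I_im _

theorem nondeg_odd (q : ℕ) (ε : ℝ) (hε : ε ≠ 0) :
    Nondegenerate (tcurve (q + 7) (fun j : Fin (2 * q + 5) => AO q ε j) 0) := by
  apply nondegenerate_tcurve
  intro c t h
  -- frequency one
  have e0 := h ⟨0, by omega⟩
  have e1 := h ⟨1, by omega⟩
  have e2 := h ⟨2, by omega⟩
  have e3 := h ⟨3, by omega⟩
  have e4 := h ⟨4, by omega⟩
  have sum1 : ∀ (s : ℝ) (f : ℂ) (a : ℕ) (ha : a < q + 7),
      ∑ w ∈ Finset.range (q + 7), ((s : ℂ) * (if w = a then f else 0)) *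
        aeval ((w : ℂ) * Complex.I) (pol c) * Complex.exp ((w : ℂ) * Complex.I * t) =
      (s : ℂ) * (f * aeval ((a : ℂ) * Complex.I) (pol c) *
        Complex.exp ((a : ℂ) * Complex.I * t)) := by
    intro s f a ha
    rw [Finset.sum_eq_single a]
    · rw [if_pos rfl]; ring
    · intro b _ hb
      rw [if_neg hb]; ring
    · intro hb
      exact absurd (Finset.mem_range.2 ha) hb
  have sum2 : ∀ (s : ℝ) (f g : ℂ), 
      ∑ w ∈ Finset.range (q + 7), ((s : ℂ) * (if w = 3 then f else if w = 2 then g else 0)) *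
        aeval ((w : ℂ) * Complex.I) (pol c) * Complex.exp ((w : ℂ) * Complex.I * t) =
      (s : ℂ) * (f * aeval (((3 : ℕ) : ℂ) * Complex.I) (pol c) *
        Complex.exp (((3 : ℕ) : ℂ) * Complex.I * t) +
        g * aeval (((2 : ℕ) : ℂ) * Complex.I) (pol c) *
        Complex.exp (((2 : ℕ) : ℂ) * Complex.I * t)) := by
    intro s f g
    have h1 : ∀ w : ℕ, (if w = 3 then f else if w = 2 then g else 0) =
        (if w = 3 then f else 0) + (if w = 2 then g else 0) := by
      intro w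
      by_cases h3 : w = 3
      · subst h3; simp
      · by_cases h2 : w = 2
        · subst h2; simp
        · simp [h3, h2]
    simp_rw [h1]
    rw [mul_add, ← sum1 s f 3 (by omega), ← sum1 s g 2 (by omega), ← Finset.sum_add_distrib]
    apply Finset.sum_congr rfl
    intro w _
    ring
  simp only [AO, if_true, one_ne_zero, if_false, OfNat.ofNat_ne_zero, OfNat.ofNat_ne_one,
    Nat.reduceEqDiff, Nat.succ_ne_self] at e0 e1 e2 e3 e4
  rw [sum1 _ _ 1 (by omega)] at e0 e1
  rw [sum2] at e2 e3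
  rw [sum1 _ _ 5 (by omega)] at e4
  have e0' := re_zero_of_scl (scl_ne hε _) e0
  have e1' := re_zero_of_scl (scl_ne hε _) e1
  have e2' := re_zero_of_scl (scl_ne hε _) e2
  have e3' := re_zero_of_scl (scl_ne hε _) e3
  have e4' := re_zero_of_scl (scl_ne hε _) e4
  have hd : FF (SO q) ∣ pol c := by
    apply FF_dvd (pol_eval_zero c)
    intro w hw
    rw [mem_SO] at hw
    rcases hw with rfl | ⟨hw1, hw2⟩
    · exact ⟨one_ne_zero, eq_zero_of_cs (Complex.exp_ne_zero _) e0' e1'⟩
    · refine ⟨by omega, ?_⟩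
      have f1 := h ⟨2 * w - 7, by omega⟩
      have f2 := h ⟨2 * w - 6, by omega⟩
      simp only [AO] at f1 f2
      simp only [if_neg (by omega : ¬ (2 * w - 7 = 0)), if_neg (by omega : ¬ (2 * w - 7 = 1)),
        if_neg (by omega : ¬ (2 * w - 7 = 2)), if_neg (by omega : ¬ (2 * w - 7 = 3)),
        if_neg (by omega : ¬ (2 * w - 7 = 4)), show (2 * w - 7 + 7) / 2 = w by omega] at f1
      simp only [if_neg (by omega : ¬ (2 * w - 6 = 0)), if_neg (by omega : ¬ (2 * w - 6 = 1)),
        if_neg (by omega : ¬ (2 * w - 6 = 2)), if_neg (by omega : ¬ (2 * w - 6 = 3)),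
        if_neg (by omega : ¬ (2 * w - 6 = 4)), show (2 * w - 6 + 7) / 2 = w by omega] at f2
      rw [sum1 _ _ w (by omega)] at f1 f2
      have f1' := re_zero_of_scl (scl_ne hε _) f1
      have f2' := re_zero_of_scl (scl_ne hε _) f2
      unfold cs at f1' f2'
      rw [if_pos (by omega)] at f1'
      rw [if_neg (by omega)] at f2'
      exact eq_zero_of_cs (Complex.exp_ne_zero _) f1' f2'
  obtain ⟨Q, hQ⟩ := hd
  by_cases hQ0 : Q = 0
  · rw [hQ, hQ0, mul_zero]
  have hQd : Q.natDegree ≤ 2 := by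
    have h1 := pol_natDegree_le c
    rw [hQ, (FF_monic _).natDegree_mul' hQ0, FF_natDegree, SO_card] at h1
    omega
  have hQe : Q = C (Q.coeff 2) * X ^ 2 + C (Q.coeff 1) * X + C (Q.coeff 0) :=
    eq_quadratic_of_degree_le_two (natDegree_le_iff_degree_le.1 hQd)
  set q0 := Q.coeff 0
  set q1 := Q.coeff 1
  set q2 := Q.coeff 2
  have hval : ∀ w : ℕ, aeval ((w : ℂ) * Complex.I) (pol c) =
      dd q w * (((q0 - q2 * w ^ 2 : ℝ) : ℂ) + ((q1 * w : ℝ) : ℂ) * Complex.I) := by
    intro w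
    rw [hQ, map_mul]
    congr 1
    rw [hQe]
    simp only [map_add, map_mul, map_pow, aeval_C, aeval_X, Complex.coe_algebraMap]
    rw [mul_pow, Complex.I_sq]
    push_cast
    ring
  have h3 : dd q 3 ≠ 0 := dd_ne _ _ (by norm_num) (by rw [mem_SO]; omega)
  have h2 : dd q 2 ≠ 0 := dd_ne _ _ (by norm_num) (by rw [mem_SO]; omega)
  have h5 : dd q 5 ≠ 0 := dd_ne _ _ (by norm_num) (by rw [mem_SO]; omega)
  rw [hval, hval] at e2' e3'
  rw [hval] at e4'
  have key : ∀ (x d z e : ℂ), d ≠ 0 → x / d * (d * z) * e = x * z * e := by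
    intro x d z e hd
    field_simp
  rw [key _ _ _ _ h3, key _ _ _ _ h2] at e2' e3'
  rw [key _ _ _ _ h5] at e4'
  have E1 : √7 * ((q0 - q2 * 9) * Real.cos (3 * t) - q1 * 3 * Real.sin (3 * t)) +
      √8 * ((q0 - q2 * 4) * Real.cos (2 * t) - q1 * 2 * Real.sin (2 * t)) = 0 := by
    rw [← e2']
    simp only [Complex.add_re, Complex.mul_re, Complex.mul_im, exp_re, exp_im, Complex.ofReal_re,
      Complex.ofReal_im, Complex.I_re, Complex.I_im, Complex.add_im]
    push_cast
    ring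
  have E2 : √7 * ((q0 - q2 * 9) * Real.sin (3 * t) + q1 * 3 * Real.cos (3 * t)) -
      √8 * ((q0 - q2 * 4) * Real.sin (2 * t) + q1 * 2 * Real.cos (2 * t)) = 0 := by
    rw [← e3']
    simp only [Complex.add_re, Complex.mul_re, Complex.mul_im, exp_re, exp_im, Complex.ofReal_re,
      Complex.ofReal_im, Complex.I_re, Complex.I_im, Complex.add_im, Complex.neg_re,
      Complex.neg_im]
    push_cast
    ring
  have E3 : (q0 - q2 * 25) * Real.cos (5 * t) - q1 * 5 * Real.sin (5 * t) = 0 := by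
    rw [← e4']
    simp only [Complex.add_re, Complex.mul_re, Complex.mul_im, exp_re, exp_im, Complex.ofReal_re,
      Complex.ofReal_im, Complex.I_re, Complex.I_im, Complex.add_im, Complex.one_re,
      Complex.one_im]
    push_cast
    ring
  have hC5 : Real.cos (5 * t) = Real.cos (3 * t) * Real.cos (2 * t) -
      Real.sin (3 * t) * Real.sin (2 * t) := by
    rw [← Real.cos_add]; ring_nf
  have hS5 : Real.sin (5 * t) = Real.sin (3 * t) * Real.cos (2 * t) +
      Real.cos (3 * t) * Real.sin (2 * t) := by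
    rw [← Real.sin_add]; ring_nf
  have h22 := Real.sin_sq_add_cos_sq (2 * t)
  have hz : q0 = 0 ∧ q1 = 0 ∧ q2 = 0 := by
    apply linalg (C := Real.cos (5 * t)) (S := Real.sin (5 * t)) (a := √7) (b := √8)
      (Real.sin_sq_add_cos_sq _) (Real.sq_sqrt (by norm_num)) (Real.sq_sqrt (by norm_num))
      (by positivity) (by positivity)
    · rw [hC5, hS5]
      linear_combination Real.cos (2 * t) * E1 - Real.sin (2 * t) * E2 +
        (-(√8) * (q0 - q2 * 4)) * h22
    · rw [hC5, hS5]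
      linear_combination Real.sin (2 * t) * E1 + Real.cos (2 * t) * E2 +
        (√8 * (q1 * 2)) * h22
    · linear_combination E3
  rw [hQ, hQe, hz.1, hz.2.1, hz.2.2]
  simp

end Pool.Agent.L5helper90.Frenet
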