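import Mathlib

/-!
# Fenchel's theorem in Euclidean spaces of any dimension
-/

open Real Set
open scoped RealInnerProductSpace ContDiff

namespace Pool.Agent.L5helper90.Frenet

variable {V : Type*} [NormedAddCommGroup V] [InnerProductSpace ℝ V]

/-- length function of a curve with velocity `T'` -/
noncomputable def len (T' : ℝ → V) (t : ℝ) : ℝ := ∫ s in (0 : ℝ)..t, ‖T' s‖

omit [InnerProductSpace ℝ V] in
theorem hasDerivAt_len {T' : ℝ → V} (hc : Continuous T') (t : ℝ) :
    HasDerivAt (len T') ‖T' t‖ t :=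
  intervalIntegral.integral_hasDerivAt_right (hc.norm.intervalIntegrable _ _)
    (hc.norm.stronglyMeasurableAtFilter _ _) hc.norm.continuousAt

theorem inner_T'_bound {T T' : ℝ → V} (hT : ∀ t, HasDerivAt T (T' t) t)
    (hu : ∀ t, ‖T t‖ = 1) {P : V} (hP : ‖P‖ = 1) (t : ℝ) :
    |⟪P, T' t⟫| ≤ √(1 - ⟪P, T t⟫ ^ 2) * ‖T' t‖ := by
  have horth : ⟪T t, T' t⟫ = 0 := by
    have h1 : HasDerivAt (fun s => ⟪T s, T s⟫) (⟪T t, T' t⟫ + ⟪T' t, T t⟫) t :=
      (hT t).inner ℝ (hT t)
    have h2 : (fun s => ⟪T s, T s⟫) = fun _ => (1 : ℝ) := by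
      funext s
      rw [real_inner_self_eq_norm_sq, hu s]; norm_num
    rw [h2] at h1
    have h3 := h1.unique (hasDerivAt_const t (1 : ℝ))
    rw [real_inner_comm (T t) (T' t)] at h3
    linarith
  have h1 : ⟪P, T' t⟫ = ⟪P - ⟪P, T t⟫ • T t, T' t⟫ := by
    rw [inner_sub_left, inner_smul_left, horth]
    simp
  have h2 : ‖P - ⟪P, T t⟫ • T t‖ = √(1 - ⟪P, T t⟫ ^ 2) := by
    rw [← Real.sqrt_sq (norm_nonneg (P - ⟪P, T t⟫ • T t))]
    congr 1
    rw [@norm_sub_sq_real, inner_smul_right, norm_smul, hP, hu t, Real.norm_eq_abs, mul_one,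
      sq_abs]
    ring
  rw [h1, ← h2]
  exact abs_real_inner_le_norm _ _

theorem inner_mem {T : ℝ → V} (hu : ∀ t, ‖T t‖ = 1) {P : V} (hP : ‖P‖ = 1) (t : ℝ) :
    -1 ≤ ⟪P, T t⟫ ∧ ⟪P, T t⟫ ≤ 1 := by
  have h := abs_real_inner_le_norm P (T t)
  rw [hP, hu t, mul_one] at h
  exact abs_le.1 h

/-- The spherical distance to a fixed point changes by at most the length. -/
theorem arccos_lip {T T' : ℝ → V} (hT : ∀ t, HasDerivAt T (T' t) t) (hc : Continuous T')
    (hu : ∀ t, ‖T t‖ = 1) {P : V} (hP : ‖P‖ = 1) {a b : ℝ} (hab : a ≤ b) :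
    |arccos ⟪P, T b⟫ - arccos ⟪P, T a⟫| ≤ len T' b - len T' a := by
  -- scaled version
  have key : ∀ c : ℝ, 0 < c → c < 1 →
      |arccos (c * ⟪P, T b⟫) - arccos (c * ⟪P, T a⟫)| ≤ len T' b - len T' a := by
    intro c hc0 hc1
    have hlt : ∀ t, (c * ⟪P, T t⟫) ^ 2 < 1 := by
      intro t
      obtain ⟨h1, h2⟩ := inner_mem hu hP t
      have h3 : ⟪P, T t⟫ ^ 2 ≤ 1 := by nlinarith
      have h4 : c ^ 2 < 1 := by nlinarith
      calc (c * ⟪P, T t⟫) ^ 2 = c ^ 2 * ⟪P, T t⟫ ^ 2 := by ring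
        _ ≤ c ^ 2 * 1 := by gcongr
        _ < 1 := by linarith
    have hd : ∀ t, HasDerivAt (fun s => arccos (c * ⟪P, T s⟫))
        (-(1 / √(1 - (c * ⟪P, T t⟫) ^ 2)) * (c * ⟪P, T' t⟫)) t := by
      intro t
      have h1 : HasDerivAt (fun s => c * ⟪P, T s⟫) (c * ⟪P, T' t⟫) t := by
        have := ((hasDerivAt_const t P).inner ℝ (hT t)).const_mul c
        simpa using this
      have h2 := hlt t
      have hne1 : c * ⟪P, T t⟫ ≠ -1 := by
        intro h; rw [h] at h2; norm_num at h2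
      have hne2 : c * ⟪P, T t⟫ ≠ 1 := by
        intro h; rw [h] at h2; norm_num at h2
      exact HasDerivAt.comp (h₂ := Real.arccos) (h := fun s => c * ⟪P, T s⟫) t
        (Real.hasDerivAt_arccos hne1 hne2) h1
    have hbd : ∀ t, |(-(1 / √(1 - (c * ⟪P, T t⟫) ^ 2)) * (c * ⟪P, T' t⟫))| ≤ ‖T' t‖ := by
      intro t
      have h1 := inner_T'_bound hT hu hP t
      have h2 := hlt t
      have hpos : 0 < √(1 - (c * ⟪P, T t⟫) ^ 2) := Real.sqrt_pos.2 (by linarith)
      rw [abs_mul, abs_neg, abs_mul, abs_of_pos hc0, abs_of_pos (by positivity)]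
      rw [one_div, inv_mul_le_iff₀ hpos]
      have h3 : c * √(1 - ⟪P, T t⟫ ^ 2) ≤ √(1 - (c * ⟪P, T t⟫) ^ 2) := by
        rw [show c * √(1 - ⟪P, T t⟫ ^ 2) = √(c ^ 2 * (1 - ⟪P, T t⟫ ^ 2)) by
          rw [Real.sqrt_mul (by positivity), Real.sqrt_sq hc0.le]]
        apply Real.sqrt_le_sqrt
        nlinarith
      calc c * |⟪P, T' t⟫| ≤ c * (√(1 - ⟪P, T t⟫ ^ 2) * ‖T' t‖) := by gcongr
        _ = (c * √(1 - ⟪P, T t⟫ ^ 2)) * ‖T' t‖ := by ring
        _ ≤ √(1 - (c * ⟪P, T t⟫) ^ 2) * ‖T' t‖ := by gcongr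
    have hm1 : Monotone fun t => len T' t - arccos (c * ⟪P, T t⟫) := by
      apply monotone_of_deriv_nonneg
      · exact fun t => ((hasDerivAt_len hc t).fun_sub (hd t)).differentiableAt
      · intro t
        rw [((hasDerivAt_len hc t).fun_sub (hd t)).deriv]
        have := abs_le.1 (hbd t)
        linarith [this.2]
    have hm2 : Monotone fun t => len T' t + arccos (c * ⟪P, T t⟫) := by
      apply monotone_of_deriv_nonneg
      · exact fun t => ((hasDerivAt_len hc t).fun_add (hd t)).differentiableAt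
      · intro t
        rw [((hasDerivAt_len hc t).fun_add (hd t)).deriv]
        have := abs_le.1 (hbd t)
        linarith [this.1]
    have h1 := hm1 hab
    have h2 := hm2 hab
    simp only at h1 h2
    rw [abs_le]
    constructor <;> linarith
  -- let c tend to 1
  have hcont : Filter.Tendsto (fun c : ℝ => |arccos (c * ⟪P, T b⟫) - arccos (c * ⟪P, T a⟫)|)
      (nhdsWithin 1 (Iio 1)) (nhds |arccos (1 * ⟪P, T b⟫) - arccos (1 * ⟪P, T a⟫)|) := by
    apply Filter.Tendsto.mono_left _ nhdsWithin_le_nhds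
    apply Continuous.tendsto
    have := Real.continuous_arccos
    fun_prop
  rw [one_mul, one_mul] at hcont
  refine le_of_tendsto hcont ?_
  have : Ioo (0 : ℝ) 1 ∈ nhdsWithin 1 (Iio 1) := Ioo_mem_nhdsLT (by norm_num)
  filter_upwards [this] with c hc1
  exact key c hc1.1 hc1.2

/-- A closed curve on the unit sphere of length less than `2π` lies in an open hemisphere. -/
theorem hemisphere {T T' : ℝ → V} (hT : ∀ t, HasDerivAt T (T' t) t) (hc : Continuous T')
    (hu : ∀ t, ‖T t‖ = 1) {L : ℝ} (hL : 0 ≤ L) (hper : T L = T 0) (hlen : len T' L < 2 * π) :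
    ∃ v : V, ∀ t ∈ Icc 0 L, 0 < ⟪T t, v⟫ := by
  have hmono : Monotone (len T') := by
    apply monotone_of_deriv_nonneg
    · exact fun t => (hasDerivAt_len hc t).differentiableAt
    · intro t
      rw [(hasDerivAt_len hc t).deriv]
      exact norm_nonneg _
  have h0 : len T' 0 = 0 := by simp [len]
  have hcont : Continuous (len T') :=
    continuous_iff_continuousAt.2 fun t => (hasDerivAt_len hc t).continuousAt
  have hL0 : 0 ≤ len T' L := h0 ▸ hmono hL
  obtain ⟨t1, ht1, ht1'⟩ : len T' L / 2 ∈ len T' '' Icc 0 L := by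
    apply intermediate_value_Icc hL hcont.continuousOn
    rw [h0]
    constructor <;> linarith
  have acos : ∀ x y : ℝ, -1 ≤ x → x ≤ 1 → -1 ≤ y → y ≤ 1 → arccos x + arccos y < π →
      0 < x + y := by
    intro x y hx1 hx2 hy1 hy2 h
    have h1 : arccos x < arccos (-y) := by rw [Real.arccos_neg]; linarith
    have h2 : -y < x := by
      by_contra hcon
      push Not at hcon
      exact absurd (Real.arccos_le_arccos hcon) (not_le.2 h1)
    linarith
  have hself : ∀ t, ⟪T t, T t⟫ = (1 : ℝ) := by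
    intro t
    rw [real_inner_self_eq_norm_sq, hu t]; norm_num
  refine ⟨T 0 + T t1, fun t ht => ?_⟩
  rw [inner_add_right]
  have m0 := inner_mem hu (hu 0) t
  have m1 := inner_mem hu (hu t1) t
  rw [real_inner_comm] at m0 m1
  apply acos _ _ m0.1 m0.2 m1.1 m1.2
  rcases le_total t t1 with h | h
  · have b1 := arccos_lip hT hc hu (hu 0) ht.1
    have b2 := arccos_lip hT hc hu (hu t1) h
    rw [hself, Real.arccos_one, sub_zero, h0] at b1
    rw [hself, Real.arccos_one, zero_sub, abs_neg] at b2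
    have b1' := (abs_le.1 b1).2
    have b2' := (abs_le.1 b2).2
    rw [real_inner_comm] at b1' b2'
    linarith
  · have b1 := arccos_lip hT hc hu (hu t1) h
    have b2 := arccos_lip hT hc hu (hu 0) ht.2
    rw [hself, Real.arccos_one, sub_zero] at b1
    rw [hper, hself, Real.arccos_one, zero_sub, abs_neg] at b2
    have b1' := (abs_le.1 b1).2
    have b2' := (abs_le.1 b2).2
    rw [real_inner_comm] at b1' b2'
    linarith

/-- **Fenchel's theorem.** Let `γ` be a closed curve with unit tangent vector `T`; then the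
length of `T` is at least `2π`. -/
theorem fenchel {γ T T' : ℝ → V} {r : ℝ → ℝ} (hγ : ∀ t, HasDerivAt γ (r t • T t) t)
    (hr : ∀ t, 0 < r t) (hT : ∀ t, HasDerivAt T (T' t) t) (hc : Continuous T')
    (hu : ∀ t, ‖T t‖ = 1) {L : ℝ} (hL : 0 < L) (hγper : γ L = γ 0) (hper : T L = T 0) :
    2 * π ≤ len T' L := by
  by_contra hcon
  push Not at hcon
  obtain ⟨v, hv⟩ := hemisphere hT hc hu hL.le hper hcon
  have hd : ∀ t, HasDerivAt (fun s => ⟪γ s, v⟫) (r t * ⟪T t, v⟫) t := by
    intro t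
    have := (hγ t).inner ℝ (hasDerivAt_const t v)
    simpa [inner_smul_left] using this
  obtain ⟨c, hc1, hc2⟩ := exists_hasDerivAt_eq_zero hL
    (fun t _ => (hd t).continuousAt.continuousWithinAt) (by simp only [hγper]) (fun t _ => hd t)
  have := hv c ⟨hc1.1.le, hc1.2.le⟩
  have := mul_pos (hr c) this
  linarith

end Pool.Agent.L5helper90.Frenet
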