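import Mathlib

/-!
# The Gram-Schmidt process for smooth families and the Frenet equations
-/

open Real Set InnerProductSpace
open scoped RealInnerProductSpace ContDiff

namespace Pool.Agent.L5helper90.Frenet

variable {V : Type*} [NormedAddCommGroup V] [InnerProductSpace ℝ V]

theorem gs_eq {N : ℕ} (f : Fin N → V) (i : Fin N) :
    gramSchmidt ℝ f i = f i - ∑ l ∈ Finset.Iio i,
      (⟪gramSchmidt ℝ f l, f i⟫ / ‖gramSchmidt ℝ f l‖ ^ 2) • gramSchmidt ℝ f l := by
  have h := gramSchmidt_def'' ℝ f i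
  exact eq_sub_of_add_eq h.symm

theorem contDiff_gs {N : ℕ} {v : ℝ → Fin N → V} (hv : ∀ i, ContDiff ℝ ∞ fun t => v t i)
    (hl : ∀ t, LinearIndependent ℝ (v t)) (i : Fin N) :
    ContDiff ℝ ∞ fun t => gramSchmidt ℝ (v t) i := by
  induction i using WellFoundedLT.induction with
  | _ i ih =>
    have h : (fun t => gramSchmidt ℝ (v t) i) = fun t => v t i - ∑ l ∈ Finset.Iio i,
      (⟪gramSchmidt ℝ (v t) l, v t i⟫ / ‖gramSchmidt ℝ (v t) l‖ ^ 2) •
        gramSchmidt ℝ (v t) l := by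
      funext t
      exact gs_eq (v t) i
    rw [h]
    refine (hv i).sub (ContDiff.sum fun l hl' => ?_)
    have hli : l < i := Finset.mem_Iio.1 hl'
    have h1 := ih l hli
    refine ContDiff.smul (ContDiff.div (h1.inner ℝ (hv i)) (h1.norm_sq ℝ) ?_) h1
    intro t
    have := gramSchmidt_ne_zero l (hl t)
    positivity

theorem inner_gs_self {N : ℕ} (f : Fin N → V) (i : Fin N) :
    ⟪f i, gramSchmidt ℝ f i⟫ = ‖gramSchmidt ℝ f i‖ ^ 2 := by
  conv_lhs => rw [gramSchmidt_def'' ℝ f i]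
  rw [inner_add_left, sum_inner, real_inner_self_eq_norm_sq]
  rw [Finset.sum_eq_zero, add_zero]
  intro l hl
  rw [inner_smul_left, gramSchmidt_orthogonal ℝ f (Finset.mem_Iio.1 hl).ne, mul_zero]

/-- Derivatives of the Gram-Schmidt vectors of the derivatives of a curve. -/
theorem deriv_gs {N : ℕ} {v : ℝ → Fin N → V} (hv : ∀ i, ContDiff ℝ ∞ fun t => v t i)
    (hl : ∀ t, LinearIndependent ℝ (v t))
    (hd : ∀ (t : ℝ) (i j : Fin N), (j : ℕ) = i + 1 → deriv (fun t => v t i) t = v t j)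
    (i : Fin N) : ∀ (t : ℝ) (m : Fin N), i < m →
    ⟪deriv (fun t => gramSchmidt ℝ (v t) i) t, gramSchmidt ℝ (v t) m⟫ =
      if (m : ℕ) = i + 1 then ‖gramSchmidt ℝ (v t) m‖ ^ 2 else 0 := by
  induction i using WellFoundedLT.induction with
  | _ i ih =>
    intro t m him
    have hg : ∀ l, Differentiable ℝ fun t => gramSchmidt ℝ (v t) l := fun l =>
      (contDiff_gs hv hl l).differentiable (by simp)
    have hvd : Differentiable ℝ fun t => v t i := (hv i).differentiable (by simp)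
    have hs : ∀ l, Differentiable ℝ fun t =>
        (⟪gramSchmidt ℝ (v t) l, v t i⟫ / ‖gramSchmidt ℝ (v t) l‖ ^ 2) := by
      intro l
      have : ContDiff ℝ ∞ fun t =>
          (⟪gramSchmidt ℝ (v t) l, v t i⟫ / ‖gramSchmidt ℝ (v t) l‖ ^ 2) := by
        refine ContDiff.div ((contDiff_gs hv hl l).inner ℝ (hv i))
          ((contDiff_gs hv hl l).norm_sq ℝ) ?_
        intro t
        have := gramSchmidt_ne_zero l (hl t)
        positivity
      exact this.differentiable (by simp)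
    have h : (fun t => gramSchmidt ℝ (v t) i) = fun t => v t i - ∑ l ∈ Finset.Iio i,
      (⟪gramSchmidt ℝ (v t) l, v t i⟫ / ‖gramSchmidt ℝ (v t) l‖ ^ 2) •
        gramSchmidt ℝ (v t) l := by
      funext t
      exact gs_eq (v t) i
    have hD : HasDerivAt (fun t => gramSchmidt ℝ (v t) i)
        (deriv (fun t => v t i) t - ∑ l ∈ Finset.Iio i,
        ((⟪gramSchmidt ℝ (v t) l, v t i⟫ / ‖gramSchmidt ℝ (v t) l‖ ^ 2) •
          deriv (fun t => gramSchmidt ℝ (v t) l) t +
        deriv (fun t => (⟪gramSchmidt ℝ (v t) l, v t i⟫ / ‖gramSchmidt ℝ (v t) l‖ ^ 2)) t •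
          gramSchmidt ℝ (v t) l)) t := by
      rw [h]
      refine HasDerivAt.fun_sub (hvd t).hasDerivAt (HasDerivAt.fun_sum fun l _ => ?_)
      exact HasDerivAt.fun_smul (hs l t).hasDerivAt (hg l t).hasDerivAt
    rw [hD.deriv, inner_sub_left, sum_inner, Finset.sum_eq_zero, sub_zero]
    · obtain ⟨j, hj⟩ : ∃ j : Fin N, (j : ℕ) = i + 1 := by
        have h1 := m.2
        have h2 : (i : ℕ) < m := him
        exact ⟨⟨i + 1, by omega⟩, rfl⟩
      rw [hd t i j hj]
      by_cases hmj : m = j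
      · subst hmj
        rw [if_pos hj, inner_gs_self]
      · rw [if_neg (fun h => hmj (Fin.ext (h.trans hj.symm))), real_inner_comm]
        apply gramSchmidt_inv_triangular
        have h2 : (i : ℕ) < m := him
        have h3 : (m : ℕ) ≠ j := fun h => hmj (Fin.ext h)
        exact Fin.lt_def.2 (by omega)
    · intro l hl'
      have hli : l < i := Finset.mem_Iio.1 hl'
      have h1 := ih l hli t m (hli.trans him)
      have h2 : ¬ ((m : ℕ) = l + 1) := by
        have h3 : (l : ℕ) < i := hli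
        have h4 : (i : ℕ) < m := him
        omega
      rw [if_neg h2] at h1
      rw [inner_add_left, inner_smul_left, inner_smul_left, h1,
        gramSchmidt_orthogonal ℝ (v t) (hli.trans him).ne]
      simp

theorem contDiff_gsn {N : ℕ} {v : ℝ → Fin N → V} (hv : ∀ i, ContDiff ℝ ∞ fun t => v t i)
    (hl : ∀ t, LinearIndependent ℝ (v t)) (i : Fin N) :
    ContDiff ℝ ∞ fun t => gramSchmidtNormed ℝ (v t) i := by
  unfold gramSchmidtNormed
  have h1 := contDiff_gs hv hl i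
  have hne : ∀ t, gramSchmidt ℝ (v t) i ≠ 0 := fun t => gramSchmidt_ne_zero i (hl t)
  exact ((h1.norm ℝ hne).inv fun t => norm_ne_zero_iff.2 (hne t)).smul h1

/-- The Frenet equations: `⟨(d/dt) e_i, e_{i+1}⟩ = |g_{i+1}| / |g_i|` with the Gram-Schmidt
vectors `g_i`. -/
theorem inner_deriv_gsn {N : ℕ} {v : ℝ → Fin N → V} (hv : ∀ i, ContDiff ℝ ∞ fun t => v t i)
    (hl : ∀ t, LinearIndependent ℝ (v t))
    (hd : ∀ (t : ℝ) (i j : Fin N), (j : ℕ) = i + 1 → deriv (fun t => v t i) t = v t j)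
    (i m : Fin N) (him : (m : ℕ) = i + 1) (t : ℝ) :
    ⟪deriv (fun t => gramSchmidtNormed ℝ (v t) i) t, gramSchmidtNormed ℝ (v t) m⟫ =
      ‖gramSchmidt ℝ (v t) m‖ / ‖gramSchmidt ℝ (v t) i‖ := by
  have hlt : i < m := Fin.lt_def.2 (by omega)
  have hne : ∀ (l : Fin N) (t : ℝ), gramSchmidt ℝ (v t) l ≠ 0 := fun l t =>
    gramSchmidt_ne_zero l (hl t)
  have hg : Differentiable ℝ fun t => gramSchmidt ℝ (v t) i :=
    (contDiff_gs hv hl i).differentiable (by simp)
  have hn : Differentiable ℝ fun t => (‖gramSchmidt ℝ (v t) i‖ : ℝ)⁻¹ := by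
    have : ContDiff ℝ ∞ fun t => (‖gramSchmidt ℝ (v t) i‖ : ℝ)⁻¹ :=
      ((contDiff_gs hv hl i).norm ℝ (hne i)).inv fun t => norm_ne_zero_iff.2 (hne i t)
    exact this.differentiable (by simp)
  have hD : HasDerivAt (fun t => gramSchmidtNormed ℝ (v t) i)
      ((‖gramSchmidt ℝ (v t) i‖ : ℝ)⁻¹ • deriv (fun t => gramSchmidt ℝ (v t) i) t +
        deriv (fun t => (‖gramSchmidt ℝ (v t) i‖ : ℝ)⁻¹) t • gramSchmidt ℝ (v t) i) t :=
    HasDerivAt.fun_smul (hn t).hasDerivAt (hg t).hasDerivAt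
  rw [hD.deriv]
  unfold gramSchmidtNormed
  rw [inner_smul_right, inner_add_left, inner_smul_left, inner_smul_left,
    deriv_gs hv hl hd i t m hlt, if_pos him, gramSchmidt_orthogonal ℝ (v t) hlt.ne]
  have h1 : ‖gramSchmidt ℝ (v t) m‖ ≠ 0 := norm_ne_zero_iff.2 (hne m t)
  have h2 : ‖gramSchmidt ℝ (v t) i‖ ≠ 0 := norm_ne_zero_iff.2 (hne i t)
  simp only [conj_trivial, RCLike.ofReal_real_eq_id, id_eq]
  field_simp
  ring

end Pool.Agent.L5helper90.Frenet
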