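import Pool.Agent.L5helper90.Frenet.Mu
import Pool.Agent.L5helper90.Frenet.GS
import Pool.Agent.L5helper90.Frenet.Fenchel

/-!
# The length of the Frenet frame
-/

open Real Set InnerProductSpace
open scoped RealInnerProductSpace ContDiff

namespace Pool.Agent.L5helper90.Frenet

theorem contDiff_iteratedDeriv {N : ℕ} {γ : ℝ → E N} (h : ContDiff ℝ ∞ γ) (k : ℕ) :
    ContDiff ℝ ∞ (iteratedDeriv k γ) := by
  induction k with
  | zero => simpa using h
  | succ k ih =>
    rw [iteratedDeriv_succ]
    exact (contDiff_infty_iff_deriv.1 ih).2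

theorem periodic_deriv' {N : ℕ} {f : ℝ → E N} {c : ℝ} (h : Function.Periodic f c) :
    Function.Periodic (deriv f) c := by
  intro t
  have h1 : (fun s => f (s + c)) = f := funext h
  have h2 := deriv_comp_add_const f c t
  rw [h1] at h2
  exact h2.symm

theorem periodic_iteratedDeriv {N : ℕ} {f : ℝ → E N} {c : ℝ} (h : Function.Periodic f c)
    (k : ℕ) : Function.Periodic (iteratedDeriv k f) c := by
  induction k with
  | zero => simpa using h
  | succ k ih =>
    rw [iteratedDeriv_succ]
    exact periodic_deriv' ih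

/-- the derivatives of a curve -/
noncomputable def vv {N : ℕ} (γ : ℝ → E N) (t : ℝ) : Fin N → E N :=
  fun i => iteratedDeriv ((i : ℕ) + 1) γ t

theorem hd_vv {N : ℕ} (γ : ℝ → E N) (t : ℝ) (i j : Fin N) (h : (j : ℕ) = i + 1) :
    deriv (fun t => vv γ t i) t = vv γ t j := by
  unfold vv
  rw [h, iteratedDeriv_succ (n := (i : ℕ) + 1)]

theorem gramSchmidt_zero_index {V : Type*} [NormedAddCommGroup V] [InnerProductSpace ℝ V]
    {n : ℕ} (f : Fin (n + 1) → V) : gramSchmidt ℝ f 0 = f 0 := by
  rw [gramSchmidt_def]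
  have : Finset.Iio (0 : Fin (n + 1)) = ∅ := by
    ext x
    simp
  rw [this, Finset.sum_empty, sub_zero]

/-- The frame length of a nondegenerate closed curve in `ℝ^{n+1}`, `n ≥ 2`, exceeds `2π`. -/
theorem two_pi_lt_frameLength {n : ℕ} (hn : 2 ≤ n) {γ : ℝ → E (n + 1)} (hγ : IsClosedCurve γ)
    (hnd : Nondegenerate γ) : 2 * π < frameLength γ := by
  have hv : ∀ i, ContDiff ℝ ∞ fun t => vv γ t i := fun i =>
    contDiff_iteratedDeriv hγ.smooth _
  have hl : ∀ t, LinearIndependent ℝ (vv γ t) := hnd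
  have hd := hd_vv γ
  have hne : ∀ (l : Fin (n + 1)) (t : ℝ), gramSchmidt ℝ (vv γ t) l ≠ 0 := fun l t =>
    gramSchmidt_ne_zero l (hl t)
  have hsm : ∀ i, ContDiff ℝ ∞ fun t => frame γ t i := fun i => contDiff_gsn hv hl i
  have hγ1 : ∀ t, deriv γ t = vv γ t 0 := by
    intro t
    simp [vv, iteratedDeriv_one]
  have hγne : ∀ t, deriv γ t ≠ 0 := by
    intro t
    rw [hγ1, ← gramSchmidt_zero_index (vv γ t)]
    exact hne 0 t
  have hγc : Continuous (deriv γ) := by
    have := (contDiff_infty_iff_deriv.1 hγ.smooth).2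
    exact this.continuous
  have hframe0 : ∀ t, frame γ t 0 = (‖deriv γ t‖)⁻¹ • deriv γ t := by
    intro t
    unfold frame gramSchmidtNormed
    change (‖gramSchmidt ℝ (vv γ t) 0‖ : ℝ)⁻¹ • gramSchmidt ℝ (vv γ t) 0 = _
    rw [gramSchmidt_zero_index, hγ1]
  -- curvatures
  have hcurv : ∀ (i : Fin n) (t : ℝ), curvature γ i t * ‖deriv γ t‖ =
      ‖gramSchmidt ℝ (vv γ t) i.succ‖ / ‖gramSchmidt ℝ (vv γ t) i.castSucc‖ := by
    intro i t
    unfold curvature
    rw [div_mul_cancel₀ _ (norm_ne_zero_iff.2 (hγne t))]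
    exact inner_deriv_gsn hv hl hd i.castSucc i.succ (by simp) t
  have hcurvpos : ∀ (i : Fin n) (t : ℝ), 0 < curvature γ i t := by
    intro i t
    have h1 := hcurv i t
    have h2 : 0 < ‖gramSchmidt ℝ (vv γ t) i.succ‖ / ‖gramSchmidt ℝ (vv γ t) i.castSucc‖ :=
      div_pos (norm_pos_iff.2 (hne _ t)) (norm_pos_iff.2 (hne _ t))
    rw [← h1] at h2
    exact pos_of_mul_pos_left h2 (norm_nonneg _)
  have hcurvcont : ∀ i : Fin n, Continuous (curvature γ i) := by
    intro i
    unfold curvature
    refine Continuous.div ?_ hγc.norm fun t => norm_ne_zero_iff.2 (hγne t)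
    refine Continuous.inner ?_ (hsm i.succ).continuous
    exact ((contDiff_infty_iff_deriv.1 (hsm i.castSucc)).2).continuous
  -- the first curvature
  set T : ℝ → E (n + 1) := fun t => frame γ t 0 with hT
  set T' : ℝ → E (n + 1) := fun t => deriv (fun s => frame γ s 0) t with hT'
  have hTd : ∀ t, HasDerivAt T (T' t) t := fun t =>
    ((hsm 0).differentiable (by simp) t).hasDerivAt
  have hTc : Continuous T' := ((contDiff_infty_iff_deriv.1 (hsm 0)).2).continuous
  have hTu : ∀ t, ‖T t‖ = 1 := fun t => gramSchmidtNormed_unit_length 0 (hl t)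
  have hone : (0 : ℕ) < n := by omega
  set i0 : Fin n := ⟨0, hone⟩ with hi0
  set i1 : Fin n := ⟨1, by omega⟩ with hi1
  have hc0 : i0.castSucc = (0 : Fin (n + 1)) := by ext; simp [hi0]
  have hnorm : ∀ t, ‖T' t‖ = curvature γ i0 t * ‖deriv γ t‖ := by
    intro t
    -- `T'` is a multiple of the second Gram-Schmidt vector
    have horth : ⟪T t, T' t⟫ = 0 := by
      have h1 : HasDerivAt (fun s => ⟪T s, T s⟫) (⟪T t, T' t⟫ + ⟪T' t, T t⟫) t :=
        (hTd t).inner ℝ (hTd t)
      have h2 : (fun s => ⟪T s, T s⟫) = fun _ => (1 : ℝ) := by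
        funext s
        rw [real_inner_self_eq_norm_sq, hTu s]; norm_num
      rw [h2] at h1
      have h3 := h1.unique (hasDerivAt_const t (1 : ℝ))
      rw [real_inner_comm (T t) (T' t)] at h3
      linarith
    have hTform : T' t = (‖deriv γ t‖)⁻¹ • deriv (deriv γ) t +
        deriv (fun s => (‖deriv γ s‖)⁻¹) t • deriv γ t := by
      have h1 : (fun s => frame γ s 0) = fun s => (‖deriv γ s‖)⁻¹ • deriv γ s :=
        funext hframe0
      have h2 : ContDiff ℝ ∞ (deriv γ) := (contDiff_infty_iff_deriv.1 hγ.smooth).2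
      have h3 : ContDiff ℝ ∞ fun s => (‖deriv γ s‖)⁻¹ :=
        (h2.norm ℝ hγne).inv fun s => norm_ne_zero_iff.2 (hγne s)
      rw [hT']
      simp only
      rw [h1]
      exact (HasDerivAt.fun_smul (h3.differentiable (by simp) t).hasDerivAt
        (h2.differentiable (by simp) t).hasDerivAt).deriv
    have h2nd : deriv (deriv γ) t = vv γ t i0.succ := by
      simp [vv, hi0, iteratedDeriv_succ]
    have hgs := gs_eq (vv γ t) i0.succ
    have hIio : Finset.Iio i0.succ = {(0 : Fin (n + 1))} := by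
      ext x
      simp only [Finset.mem_Iio, Finset.mem_singleton, Fin.lt_def, hi0, Fin.ext_iff]
      simp
    rw [hIio, Finset.sum_singleton, gramSchmidt_zero_index, ← h2nd, ← hγ1] at hgs
    set s := ⟪deriv γ t, deriv (deriv γ) t⟫ / ‖deriv γ t‖ ^ 2 with hs
    set g1 := gramSchmidt ℝ (vv γ t) i0.succ with hg1
    have h2' : deriv (deriv γ) t = g1 + s • deriv γ t := by
      rw [hgs]; abel
    have hgorth : ⟪deriv γ t, g1⟫ = 0 := by
      rw [hγ1, ← gramSchmidt_zero_index (vv γ t), hg1]
      exact gramSchmidt_orthogonal ℝ (vv γ t) (by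
        rw [← hc0]; exact (Fin.castSucc_lt_succ).ne)
    have hγpos : 0 < ‖deriv γ t‖ := norm_pos_iff.2 (hγne t)
    have hTform2 : T' t = (‖deriv γ t‖)⁻¹ • g1 +
        ((‖deriv γ t‖)⁻¹ * s + deriv (fun s => (‖deriv γ s‖)⁻¹) t) • deriv γ t := by
      rw [hTform, h2', smul_add, smul_smul, add_smul]
      abel
    set b := (‖deriv γ t‖)⁻¹ * s + deriv (fun s => (‖deriv γ s‖)⁻¹) t with hb
    have hb0 : b = 0 := by
      have h4 : ⟪deriv γ t, T' t⟫ = 0 := by
        have h5 : deriv γ t = ‖deriv γ t‖ • T t := by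
          rw [hT]
          simp only
          rw [hframe0, smul_smul, mul_inv_cancel₀ hγpos.ne', one_smul]
        rw [h5, inner_smul_left, horth]
        simp
      rw [hTform2, inner_add_right, inner_smul_right, inner_smul_right, hgorth,
        real_inner_self_eq_norm_sq, mul_zero, zero_add] at h4
      rcases mul_eq_zero.1 h4 with h | h
      · exact h
      · exact absurd h (by positivity)
    rw [hcurv i0 t, hc0, gramSchmidt_zero_index, ← hγ1, hTform2, hb0, zero_smul, add_zero,
      norm_smul, norm_inv, norm_norm, ← hg1]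
    field_simp
  -- Fenchel
  have hfen : 2 * π ≤ len T' (2 * π) := by
    apply fenchel (γ := γ) (T := T) (r := fun t => ‖deriv γ t‖) _ _ hTd hTc hTu (by positivity)
    · have := hγ.periodic 0
      rwa [zero_add] at this
    · rw [hT]
      simp only
      rw [hframe0, hframe0]
      have := periodic_deriv' hγ.periodic 0
      rw [zero_add] at this
      rw [this]
    · intro t
      rw [hT]
      simp only
      rw [hframe0, smul_smul, mul_inv_cancel₀ (norm_ne_zero_iff.2 (hγne t)), one_smul]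
      exact (hγ.smooth.differentiable (by simp) t).hasDerivAt
    · intro t
      exact norm_pos_iff.2 (hγne t)
  -- comparison
  have hlt : ∀ t, ‖T' t‖ < √(∑ i : Fin n, curvature γ i t ^ 2) * ‖deriv γ t‖ := by
    intro t
    rw [hnorm t]
    have hγpos : 0 < ‖deriv γ t‖ := norm_pos_iff.2 (hγne t)
    refine mul_lt_mul_of_pos_right ?_ hγpos
    rw [Real.lt_sqrt (hcurvpos i0 t).le]
    have hsub : ({i0, i1} : Finset (Fin n)) ⊆ Finset.univ := Finset.subset_univ _
    have h01 : i0 ≠ i1 := by
      intro h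
      have := congrArg Fin.val h
      simp [hi0, hi1] at this
    have h2 : ∑ i ∈ ({i0, i1} : Finset (Fin n)), curvature γ i t ^ 2 ≤
        ∑ i : Fin n, curvature γ i t ^ 2 :=
      Finset.sum_le_sum_of_subset_of_nonneg hsub fun i _ _ => sq_nonneg _
    rw [Finset.sum_pair h01] at h2
    have h3 := hcurvpos i1 t
    nlinarith
  have hcont2 : Continuous fun t => √(∑ i : Fin n, curvature γ i t ^ 2) * ‖deriv γ t‖ := by
    refine Continuous.mul (Real.continuous_sqrt.comp ?_) hγc.norm
    exact continuous_finsetSum _ fun i _ => (hcurvcont i).pow 2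
  refine lt_of_le_of_lt hfen ?_
  unfold len frameLength
  apply intervalIntegral.integral_lt_integral_of_continuousOn_of_le_of_exists_lt
    (by positivity) hTc.norm.continuousOn hcont2.continuousOn
  · intro t _
    exact (hlt t).le
  · exact ⟨0, ⟨le_refl 0, by positivity⟩, hlt 0⟩

end Pool.Agent.L5helper90.Frenet
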