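import Pool.Agent.L5helper90.Frenet.Exist

/-!
# `μ(n) = 1` for `n ≥ 4`
-/

open Real
open scoped ContDiff

namespace Pool.Agent.L5helper90.Frenet

theorem trig_zero_coef (N k : ℕ) (t : ℝ) : trig N (fun _ => 0) k t = 0 := by
  simp [trig]

theorem tcurve_bound {n : ℕ} (N : ℕ) (A : Fin n → ℕ → ℂ) (k : ℕ) :
    ∃ M : ℝ, 0 ≤ M ∧ ∀ t, ‖tcurve N A k t‖ ≤ M := by
  have hc : Continuous (tcurve N A k) :=
    continuous_iff_continuousAt.2 fun t => (hasDerivAt_tcurve N A k t).continuousAt
  have hp : Function.Periodic (tcurve N A k) (2 * π) := by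
    intro t
    unfold tcurve
    congr 1
    funext j
    exact trig_periodic N (A j) k t
  obtain ⟨M, hM⟩ := (hp.isBounded_of_continuous (by positivity) hc).exists_norm_le
  exact ⟨max M 0, le_max_right _ _, fun t => (hM _ ⟨t, rfl⟩).trans (le_max_left _ _)⟩

theorem perturbable_of {n : ℕ} (N : ℕ) (B : Fin n → ℕ → ℂ)
    (h0 : ∀ j : Fin n, (j : ℕ) = 0 → ∀ t, trig N (B j) 0 t = cos t)
    (h1 : ∀ j : Fin n, (j : ℕ) = 1 → ∀ t, trig N (B j) 0 t = sin t)
    (hB : ∀ ε : ℝ, ε ≠ 0 → Nondegenerate (tcurve N (fun j w => (scl ε j : ℂ) * B j w) 0)) :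
    Perturbable n 1 := by
  intro k δ hδ
  set B' : Fin n → ℕ → ℂ := fun j w => if (j : ℕ) < 2 then 0 else B j w with hB'
  choose M hM0 hM using fun k => tcurve_bound N B' k
  set M' : ℝ := ∑ j ∈ Finset.range (k + 1), M j + 1 with hM'
  have hM'0 : 0 < M' := by
    have : 0 ≤ ∑ j ∈ Finset.range (k + 1), M j := Finset.sum_nonneg fun j _ => hM0 j
    linarith
  set ε : ℝ := δ / M' with hε
  have hε0 : 0 < ε := div_pos hδ hM'0
  refine ⟨tcurve N (fun j w => (scl ε j : ℂ) * B j w) 0, isClosedCurve_tcurve _ _, hB ε hε0.ne', ?_⟩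
  intro i hi t
  have hcirc : circ n 1 = tcurve N (fun (j : Fin n) w => if (j : ℕ) < 2 then B j w else 0) 0 := by
    funext s
    unfold circ tcurve
    congr 1
    funext j
    by_cases hj0 : (j : ℕ) = 0
    · simp only [hj0, if_true, zero_lt_two]
      rw [h0 j hj0 s]
      simp
    · by_cases hj1 : (j : ℕ) = 1
      · simp only [hj1, one_ne_zero, if_false, if_true, one_lt_two]
        rw [h1 j hj1 s]
        simp
      · rw [if_neg hj0, if_neg hj1]
        have : ¬ ((j : ℕ) < 2) := by omega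
        simp only [this, if_false]
        exact (trig_zero_coef N 0 s).symm
  rw [hcirc, iteratedDeriv_tcurve, iteratedDeriv_tcurve]
  have hdiff : tcurve N (fun j w => (scl ε j : ℂ) * B j w) i t -
      tcurve N (fun (j : Fin n) w => if (j : ℕ) < 2 then B j w else 0) i t =
      ε • tcurve N B' i t := by
    ext j
    simp only [tcurve, PiLp.sub_apply, PiLp.smul_apply, smul_eq_mul]
    rw [trig_smul]
    by_cases hj : (j : ℕ) < 2
    · simp only [hB', hj, if_true, scl, trig_zero_coef]
      ring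
    · simp only [hB', hj, if_false, scl, trig_zero_coef]
      ring
  rw [hdiff, norm_smul, Real.norm_eq_abs, abs_of_pos hε0]
  have hMi : M i < M' := by
    have : M i ≤ ∑ j ∈ Finset.range (k + 1), M j :=
      Finset.single_le_sum (fun j _ => hM0 j) (Finset.mem_range.2 (by omega))
    linarith
  calc ε * ‖tcurve N B' i t‖ ≤ ε * M i := by
        exact mul_le_mul_of_nonneg_left (hM i t) hε0.le
    _ < ε * M' := by exact mul_lt_mul_of_pos_left hMi hε0
    _ = δ := by rw [hε]; field_simp

open Complex in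
theorem trig_cos (N : ℕ) (hN : 1 < N) (t : ℝ) :
    trig N (fun w => if w = 1 then 1 else 0) 0 t = Real.cos t := by
  unfold trig
  rw [Finset.sum_eq_single 1]
  · simp only [if_true, pow_zero, mul_one, one_mul, exp_re]
    simp
  · intro b _ hb
    simp [hb]
  · intro h; exact absurd (Finset.mem_range.2 hN) h

open Complex in
theorem trig_sin (N : ℕ) (hN : 1 < N) (t : ℝ) :
    trig N (fun w => if w = 1 then -I else 0) 0 t = Real.sin t := by
  unfold trig
  rw [Finset.sum_eq_single 1]
  · simp only [if_true, pow_zero, mul_one, neg_mul, Complex.neg_re, Complex.I_mul_re, exp_im,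
      neg_neg]
    simp
  · intro b _ hb
    simp [hb]
  · intro h; exact absurd (Finset.mem_range.2 hN) h

theorem perturbable_even (p : ℕ) (hp : 1 ≤ p) : Perturbable (2 * p) 1 := by
  apply perturbable_of (p + 1) (fun j => AE 1 j)
  · intro j hj t
    rw [← trig_cos (p + 1) (by omega) t]
    congr 1
    funext w
    simp [AE, hj, scl, cs]
  · intro j hj t
    rw [← trig_sin (p + 1) (by omega) t]
    congr 1
    funext w
    simp [AE, hj, scl, cs]
  · intro ε hε
    convert nondeg_even p ε hε using 4 with j w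
    unfold AE
    by_cases hj : (j : ℕ) < 2 <;> simp [scl, hj]

theorem perturbable_odd (q : ℕ) : Perturbable (2 * q + 5) 1 := by
  apply perturbable_of (q + 7) (fun j => AO q 1 j)
  · intro j hj t
    rw [← trig_cos (q + 7) (by omega) t]
    congr 1
    funext w
    simp [AO, hj, scl]
  · intro j hj t
    rw [← trig_sin (q + 7) (by omega) t]
    congr 1
    funext w
    simp [AO, hj, scl]
  · intro ε hε
    convert nondeg_odd q ε hε using 4 with j w
    unfold AO
    by_cases hj : (j : ℕ) < 2 <;> simp [scl, hj]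

theorem perturbable_one (n : ℕ) (hn : 4 ≤ n) : Perturbable n 1 := by
  rcases Nat.even_or_odd' n with ⟨p, rfl | rfl⟩
  · exact perturbable_even p (by omega)
  · obtain ⟨q, rfl⟩ : ∃ q, p = q + 2 := ⟨p - 2, by omega⟩
    exact perturbable_odd q

theorem mu_eq_one (n : ℕ) (hn : 4 ≤ n) : mu n = 1 := by
  have h : IsLeast {m : ℕ | 1 ≤ m ∧ Perturbable n m} 1 :=
    ⟨⟨le_refl 1, perturbable_one n hn⟩, fun m hm => hm.1⟩
  exact h.csInf_eq

end Pool.Agent.L5helper90.Frenet
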