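import Pool.Agent.L5helper90.Frenet.Defs

/-!
# Trigonometric curves
-/

open Real
open scoped RealInnerProductSpace ContDiff

namespace Pool.Agent.L5helper90.Frenet

open Complex in
/-- `k`-th derivative of the trigonometric polynomial `Re ∑ a_w e^{iwt}`. -/
noncomputable def trig (N : ℕ) (a : ℕ → ℂ) (k : ℕ) (t : ℝ) : ℝ :=
  (∑ w ∈ Finset.range N, a w * ((w : ℂ) * I) ^ k * Complex.exp ((w : ℂ) * I * t)).re

open Complex in
theorem hasDerivAt_trig (N : ℕ) (a : ℕ → ℂ) (k : ℕ) (t : ℝ) :
    HasDerivAt (trig N a k) (trig N a (k + 1) t) t := by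
  have h : HasDerivAt (fun z : ℂ => ∑ w ∈ Finset.range N, a w * ((w : ℂ) * I) ^ k *
      Complex.exp ((w : ℂ) * I * z))
      (∑ w ∈ Finset.range N, a w * ((w : ℂ) * I) ^ (k + 1) *
      Complex.exp ((w : ℂ) * I * t)) (t : ℂ) := by
    apply HasDerivAt.fun_sum
    intro w _
    have h1 : HasDerivAt (fun z : ℂ => Complex.exp ((w : ℂ) * I * z))
        (Complex.exp ((w : ℂ) * I * t) * ((w : ℂ) * I)) (t : ℂ) := by
      have h2 : HasDerivAt (fun z : ℂ => (w : ℂ) * I * z) ((w : ℂ) * I) (t : ℂ) := by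
        simpa using (hasDerivAt_id (t : ℂ)).const_mul ((w : ℂ) * I)
      exact h2.cexp
    have h3 := h1.const_mul (a w * ((w : ℂ) * I) ^ k)
    have h4 : a w * ((w : ℂ) * I) ^ (k + 1) * Complex.exp ((w : ℂ) * I * t) =
        a w * ((w : ℂ) * I) ^ k * (Complex.exp ((w : ℂ) * I * t) * ((w : ℂ) * I)) := by ring
    rw [h4]
    exact h3
  exact h.real_of_complex

open Complex in
theorem trig_periodic (N : ℕ) (a : ℕ → ℂ) (k : ℕ) : Function.Periodic (trig N a k) (2 * π) := by
  intro t
  unfold trig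
  congr 1
  apply Finset.sum_congr rfl
  intro w _
  congr 1
  have : (w : ℂ) * I * ((t + 2 * π : ℝ) : ℂ) = (w : ℂ) * I * t + w * (2 * π * I) := by
    push_cast; ring
  rw [this, Complex.exp_add, Complex.exp_nat_mul_two_pi_mul_I, mul_one]

theorem contDiff_trig (N : ℕ) (a : ℕ → ℂ) (k : ℕ) : ContDiff ℝ ∞ (trig N a k) := by
  have h : ∀ (m : ℕ) (k : ℕ), ContDiff ℝ m (trig N a k) := by
    intro m
    induction m with
    | zero =>
      intro k
      simp only [Nat.cast_zero]
      rw [contDiff_zero]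
      exact continuous_iff_continuousAt.2 fun t => (hasDerivAt_trig N a k t).continuousAt
    | succ m ih =>
      intro k
      have : deriv (trig N a k) = trig N a (k + 1) := by
        funext t; exact (hasDerivAt_trig N a k t).deriv
      rw [show ((m + 1 : ℕ) : WithTop ℕ∞) = (m : WithTop ℕ∞) + 1 by push_cast; rfl]
      rw [contDiff_succ_iff_deriv]
      refine ⟨fun t => (hasDerivAt_trig N a k t).differentiableAt, ?_, ?_⟩
      · intro h; exact absurd h (by simp)
      · rw [this]; exact ih (k + 1)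
  exact contDiff_infty.2 fun m => h m k

theorem trig_smul (N : ℕ) (a : ℕ → ℂ) (k : ℕ) (t : ℝ) (c : ℝ) :
    trig N (fun w => (c : ℂ) * a w) k t = c * trig N a k t := by
  unfold trig
  rw [← Complex.re_ofReal_mul, Finset.mul_sum]
  congr 1
  apply Finset.sum_congr rfl
  intro w _
  ring

/-- The curve with coordinates the trigonometric polynomials with coefficients `A j`; more
precisely its `k`-th derivative. -/
noncomputable def tcurve {n : ℕ} (N : ℕ) (A : Fin n → ℕ → ℂ) (k : ℕ) (t : ℝ) : E n :=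
  WithLp.toLp 2 fun j => trig N (A j) k t

theorem hasDerivAt_tcurve {n : ℕ} (N : ℕ) (A : Fin n → ℕ → ℂ) (k : ℕ) (t : ℝ) :
    HasDerivAt (tcurve N A k) (tcurve N A (k + 1) t) t := by
  have h : HasDerivAt (fun t => fun j => trig N (A j) k t) (fun j => trig N (A j) (k + 1) t) t :=
    hasDerivAt_pi.2 fun j => hasDerivAt_trig N (A j) k t
  exact (PiLp.continuousLinearEquiv 2 ℝ (fun _ : Fin n => ℝ)).symm.hasFDerivAt.comp_hasDerivAt t h

theorem iteratedDeriv_tcurve {n : ℕ} (N : ℕ) (A : Fin n → ℕ → ℂ) (k : ℕ) :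
    iteratedDeriv k (tcurve N A 0) = tcurve N A k := by
  induction k with
  | zero => simp
  | succ k ih =>
    rw [iteratedDeriv_succ, ih]
    funext t
    exact (hasDerivAt_tcurve N A k t).deriv

theorem isClosedCurve_tcurve {n : ℕ} (N : ℕ) (A : Fin n → ℕ → ℂ) :
    IsClosedCurve (tcurve N A 0) := by
  constructor
  · have h : ContDiff ℝ ∞ (fun t => fun j => trig N (A j) 0 t) :=
      contDiff_pi.2 fun j => contDiff_trig N (A j) 0
    exact (PiLp.continuousLinearEquiv 2 ℝ (fun _ : Fin n => ℝ)).symm.contDiff.comp h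
  · intro t
    unfold tcurve
    congr 1
    funext j
    exact trig_periodic N (A j) 0 t

/-- The value `P(z) = ∑ c_i z^{i+1}`. -/
noncomputable def pol {n : ℕ} (c : Fin n → ℝ) : Polynomial ℝ :=
  ∑ i : Fin n, Polynomial.C (c i) * Polynomial.X ^ ((i : ℕ) + 1)

theorem sum_trig {n : ℕ} (N : ℕ) (a : ℕ → ℂ) (c : Fin n → ℝ) (t : ℝ) :
    ∑ i : Fin n, c i * trig N a ((i : ℕ) + 1) t =
      (∑ w ∈ Finset.range N, a w * Polynomial.aeval ((w : ℂ) * Complex.I) (pol c) *
        Complex.exp ((w : ℂ) * Complex.I * t)).re := by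
  have h : ∀ i : Fin n, c i * trig N a ((i : ℕ) + 1) t =
      (∑ w ∈ Finset.range N, a w * (c i * ((w : ℂ) * Complex.I) ^ ((i : ℕ) + 1)) *
        Complex.exp ((w : ℂ) * Complex.I * t)).re := by
    intro i
    unfold trig
    rw [← Complex.re_ofReal_mul, Finset.mul_sum]
    congr 1
    apply Finset.sum_congr rfl
    intro w _
    ring
  rw [Finset.sum_congr rfl fun i _ => h i, ← Complex.re_sum, Finset.sum_comm]
  congr 1
  apply Finset.sum_congr rfl
  intro w _
  rw [← Finset.sum_mul, ← Finset.mul_sum]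
  congr 2
  simp [pol, map_sum]

/-- Criterion for nondegeneracy. -/
theorem nondegenerate_tcurve {n : ℕ} (N : ℕ) (A : Fin n → ℕ → ℂ)
    (h : ∀ (c : Fin n → ℝ) (t : ℝ),
      (∀ j, (∑ w ∈ Finset.range N, A j w * Polynomial.aeval ((w : ℂ) * Complex.I) (pol c) *
        Complex.exp ((w : ℂ) * Complex.I * t)).re = 0) → pol c = 0) :
    Nondegenerate (tcurve N A 0) := by
  intro t
  rw [Fintype.linearIndependent_iff]
  intro c hc
  have h0 : pol c = 0 := by
    apply h c t
    intro j
    rw [← sum_trig]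
    have h1 := congrArg (fun v : E n => v j) hc
    simp only [iteratedDeriv_tcurve] at h1
    simpa [tcurve, PiLp.smul_apply] using h1
  intro i
  have h2 := congrArg (fun p : Polynomial ℝ => p.coeff ((i : ℕ) + 1)) h0
  simp only [pol, Polynomial.finsetSum_coeff, Polynomial.coeff_C_mul, Polynomial.coeff_X_pow,
    Polynomial.coeff_zero] at h2
  rw [Finset.sum_eq_single i] at h2
  · simpa using h2
  · intro b _ hb
    have : ¬ ((i : ℕ) + 1 = (b : ℕ) + 1) := by
      intro h; apply hb; apply Fin.ext; omega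
    rw [if_neg this, mul_zero]
  · simp

end Pool.Agent.L5helper90.Frenet
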